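import Pool.Agent.Helper34.SG.Sel

/-!
# The Steinhaus argument with names
-/

namespace Pool.Agent.Helper34.SG

open Set Function

set_option linter.unusedSectionVars false

variable {I : Type} [LinearOrder I] [WellFoundedLT I]

namespace St1

/-! ### Strings -/

/-- all strings of length `k` -/
def str (k : ℕ) : Finset (List Bool) :=
  (Finset.univ : Finset (Fin k → Bool)).image List.ofFn

theorem mem_str {k : ℕ} {l : List Bool} : l ∈ str k ↔ l.length = k := by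
  unfold str
  rw [Finset.mem_image]
  constructor
  · rintro ⟨f, -, rfl⟩
    exact List.length_ofFn
  · rintro rfl
    exact ⟨l.get, Finset.mem_univ _, List.ofFn_get l⟩

theorem card_str (k : ℕ) : (str k).card = 2 ^ k := by
  unfold str
  rw [Finset.card_image_of_injective _ List.ofFn_injective]
  simp

/-- the number of the strings of length `k'` extending a string of length `k` -/
theorem card_ext_le {k k' : ℕ} (X : Finset (List Bool)) (hX : ∀ a ∈ X, a.length = k')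
    (s : List Bool) (hs : ∀ a ∈ X, a.take k = s) : X.card ≤ 2 ^ (k' - k) := by
  rw [← card_str (k' - k)]
  refine Finset.card_le_card_of_injOn (fun a => a.drop k) ?_ ?_
  · intro a ha
    have := hX a ha
    show a.drop k ∈ str (k' - k)
    rw [mem_str, List.length_drop, this]
  · intro a ha b hb hab
    have h1 := hs a ha
    have h2 := hs b hb
    simp only at hab
    rw [← List.take_append_drop k a, ← List.take_append_drop k b, h1, h2, hab]

theorem wt_level {k : ℕ} {X : Finset (List Bool)} (hX : ∀ a ∈ X, a.length = k) :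
    wt X = X.card * (1 / 2 : ℝ) ^ k := by
  unfold wt
  rw [Finset.sum_congr rfl (fun a ha => by rw [hX a ha]), Finset.sum_const, nsmul_eq_mul]

/-- a density argument -/
theorem wt_le_of_fiber {k k' : ℕ} (h : k ≤ k') {X Y : Finset (List Bool)}
    (hX : ∀ a ∈ X, a.length = k) (hY : ∀ a ∈ Y, a.length = k') (hYX : ∀ a ∈ Y, a.take k ∈ X)
    (c : ℝ) (hc : ∀ s ∈ X, ((Y.filter (fun a => a.take k = s)).card : ℝ) ≤ c * 2 ^ (k' - k)) :
    wt Y ≤ c * wt X := by
  rw [wt_level hX, wt_level hY]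
  have h1 : (Y.card : ℝ) ≤ c * 2 ^ (k' - k) * X.card := by
    rw [Finset.card_eq_sum_card_fiberwise (f := fun a : List Bool => a.take k) (t := X)
      (fun a ha => hYX a ha)]
    push_cast
    calc ∑ s ∈ X, ((Y.filter (fun a => a.take k = s)).card : ℝ) ≤ ∑ s ∈ X, c * 2 ^ (k' - k) :=
          Finset.sum_le_sum hc
      _ = c * 2 ^ (k' - k) * X.card := by
          rw [Finset.sum_const, nsmul_eq_mul]
          ring
  have h2 : (1 / 2 : ℝ) ^ k = 2 ^ (k' - k) * (1 / 2 : ℝ) ^ k' := by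
    have : k' = k + (k' - k) := by omega
    conv_rhs => rw [this]
    rw [pow_add, show k + (k' - k) - k = k' - k by omega]
    have h3 : (2 : ℝ) ^ (k' - k) * (1 / 2) ^ (k' - k) = 1 := by
      rw [← mul_pow]
      norm_num
    linear_combination (-(1 / 2 : ℝ) ^ k) * h3
  calc (Y.card : ℝ) * (1 / 2) ^ k' ≤ c * 2 ^ (k' - k) * X.card * (1 / 2) ^ k' :=
        mul_le_mul_of_nonneg_right h1 (by positivity)
    _ = c * (X.card * (1 / 2) ^ k) := by
        rw [h2]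
        ring

theorem wt_le_of_take {k k' : ℕ} (h : k ≤ k') {X Y : Finset (List Bool)}
    (hX : ∀ a ∈ X, a.length = k) (hY : ∀ a ∈ Y, a.length = k') (hYX : ∀ a ∈ Y, a.take k ∈ X) :
    wt Y ≤ wt X := by
  have := wt_le_of_fiber h hX hY hYX 1 (fun s _ => by
    rw [one_mul]
    exact_mod_cast card_ext_le _ (fun a ha => hY a (Finset.mem_of_mem_filter a ha)) s
      (fun a ha => (Finset.mem_filter.1 ha).2))
  rwa [one_mul] at this

theorem exists_dense_fiber {k k' : ℕ} (h : k ≤ k') {X Y : Finset (List Bool)}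
    (hX : ∀ a ∈ X, a.length = k) (hY : ∀ a ∈ Y, a.length = k') (hYX : ∀ a ∈ Y, a.take k ∈ X)
    (hw : wt X < 4 / 3 * wt Y) : ∃ s ∈ X,
      (3 / 4 : ℝ) * 2 ^ (k' - k) ≤ (Y.filter (fun a => a.take k = s)).card := by
  by_contra hcon
  push Not at hcon
  have := wt_le_of_fiber h hX hY hYX (3 / 4) (fun s hs => (hcon s hs).le)
  linarith

/-! ### Minimization -/

theorem exists_near_min {X : Type} (R : X → X → Prop) (hR : ∀ x y z, R x y → R y z → R x z)
    (f : X → ℝ) (c : ℝ) (hc : 0 < c) (x₀ : X) (hx₀ : R x₀ x₀) (hf : ∀ x, R x₀ x → c ≤ f x) :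
    ∃ x, R x₀ x ∧ ∀ y, R x y → f x < 4 / 3 * f y := by
  set A : Set ℝ := f '' {x | R x₀ x} with hA
  have h1 : A.Nonempty := ⟨f x₀, x₀, hx₀, rfl⟩
  have h2 : BddBelow A := ⟨c, by
    rintro _ ⟨x, hx, rfl⟩
    exact hf x hx⟩
  have h3 : c ≤ sInf A := le_csInf h1 (by
    rintro _ ⟨x, hx, rfl⟩
    exact hf x hx)
  obtain ⟨_, ⟨x, hx, rfl⟩, h4⟩ := exists_lt_of_csInf_lt h1 (show sInf A < 4 / 3 * sInf A by linarith)
  refine ⟨x, hx, fun y hy => ?_⟩
  have h5 : sInf A ≤ f y := csInf_le h2 ⟨y, hR _ _ _ hx hy, rfl⟩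
  linarith

/-! ### Deciding finitely many values -/

/-- `p` decides the value of `O l` for all `l ∈ F` -/
def Dec (δ : I) (O : List Bool → Cn I → Prop) (F : Finset (List Bool)) (p : Cn I) : Prop :=
  ∀ l ∈ F, O l p ∨ ∀ r, Ext δ r p → ¬ O l r

theorem Dec.mono {δ : I} {T : CN δ} {F : Finset (List Bool)} {p q : Cn I} (h : Dec δ T.O F p)
    (hq : Ext δ q p) : Dec δ T.O F q := by
  intro l hl
  rcases h l hl with h1 | h1
  · exact Or.inl ((T.reg l).mono _ _ hq h1)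
  · exact Or.inr fun r hr => h1 r (hr.trans hq)

theorem Dec.iff {δ : I} {T : CN δ} {F : Finset (List Bool)} {p q : Cn I} (h : Dec δ T.O F p)
    (hq : Ext δ q p) {l : List Bool} (hl : l ∈ F) : T.O l q ↔ T.O l p := by
  constructor
  · intro h1
    rcases h l hl with h2 | h2
    · exact h2
    · exact absurd h1 (h2 q hq)
  · exact fun h1 => (T.reg l).mono _ _ hq h1

theorem Dec.sub {δ : I} {O : List Bool → Cn I → Prop} {F F' : Finset (List Bool)} {p : Cn I}
    (h : Dec δ O F p) (hF : F' ⊆ F) : Dec δ O F' p := fun l hl => h l (hF hl)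

theorem exists_Dec {δ : I} (T : CN δ) (F : Finset (List Bool)) : ∀ p, Val δ p →
    ∃ q, Ext δ q p ∧ Dec δ T.O F q := by
  classical
  induction F using Finset.induction_on with
  | empty => exact fun p hp => ⟨p, Ext.refl hp, fun l hl => absurd hl (Finset.notMem_empty l)⟩
  | insert a F ha ih =>
    intro p hp
    obtain ⟨q, hq, h1⟩ := ih p hp
    by_cases h2 : ∃ r, Ext δ r q ∧ T.O a r
    · obtain ⟨r, hr, h3⟩ := h2
      refine ⟨r, hr.trans hq, fun l hl => ?_⟩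
      rcases Finset.mem_insert.1 hl with rfl | hl
      · exact Or.inl h3
      · exact h1.mono hr l hl
    · push Not at h2
      refine ⟨q, hq, fun l hl => ?_⟩
      rcases Finset.mem_insert.1 hl with rfl | hl
      · exact Or.inr h2
      · exact h1 l hl

/-- finitely many strings are extended to strings in the complement of a nowhere dense set -/
theorem exists_NWD {δ : I} (C : CN δ) {q : Cn I} (hC : NWD δ C.O q) {A : Type} (F : Finset A)
    (τ₀ : A → List Bool) : ∀ p, Ext δ p q → ∃ r, Ext δ r p ∧ ∃ τ : A → List Bool,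
      ∀ a ∈ F, τ₀ a <+: τ a ∧ C.O (τ a) r := by
  classical
  induction F using Finset.induction_on with
  | empty => exact fun p hp => ⟨p, Ext.refl hp.1, τ₀, fun l hl => absurd hl (Finset.notMem_empty l)⟩
  | insert a F ha ih =>
    intro p hp
    obtain ⟨r, hr, τ, h1⟩ := ih p hp
    obtain ⟨r', t, hr', h2, h3⟩ := hC r (hr.trans hp) (τ₀ a)
    refine ⟨r', hr'.trans hr, update τ a t, fun b hb => ?_⟩
    rcases Finset.mem_insert.1 hb with rfl | hb'
    · rw [update_self]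
      exact ⟨h2, h3⟩
    · have hne : b ≠ a := by
        rintro rfl
        exact ha hb'
      rw [update_of_ne hne]
      exact ⟨(h1 b hb').1, (C.reg _).mono _ _ hr' (h1 b hb').2⟩

/-! ### Names of closed sets -/

theorem CN_prefix {δ : I} (T : CN δ) {σ : List Bool} {p : Cn I} (h : T.O σ p) :
    ∀ ρ, T.O (σ ++ ρ) p := by
  intro ρ
  induction ρ using List.reverseRecOn with
  | nil => rwa [List.append_nil]
  | append_singleton l a ih =>
    rw [← List.append_assoc]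
    exact T.ext _ _ _ ih

theorem CN_split {δ : I} (T : CN δ) {p : Cn I} (hp : Val δ p) : ∀ (n : ℕ) (σ : List Bool),
    (∀ ρ : List Bool, ρ.length = n → T.O (σ ++ ρ) p) → T.O σ p := by
  intro n
  induction n with
  | zero => exact fun σ h => by simpa using h [] rfl
  | succ n ih =>
    intro σ h
    refine T.split σ p hp (ih _ fun ρ hρ => ?_) (ih _ fun ρ hρ => ?_)
    · have := h (false :: ρ) (by simp [hρ])
      simpa using this
    · have := h (true :: ρ) (by simp [hρ])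
      simpa using this

/-- the strings of length `k` in the tree of `T` -/
noncomputable def Sk (O : List Bool → Cn I → Prop) (k : ℕ) (p : Cn I) : Finset (List Bool) :=
  @Finset.filter _ (fun σ => ¬ O σ p) (Classical.decPred _) (str k)

theorem mem_Sk {O : List Bool → Cn I → Prop} {k : ℕ} {p : Cn I} {σ : List Bool} :
    σ ∈ Sk O k p ↔ σ.length = k ∧ ¬ O σ p := by
  unfold Sk
  rw [@Finset.mem_filter _ _ (Classical.decPred _), mem_str]

theorem InC_Sk {δ : I} (T : CN δ) {p : Cn I} (hp : Val δ p) (k : ℕ) : InC T.O (Sk T.O k p) p := by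
  intro σ hσ
  rcases Nat.lt_or_ge k σ.length with h | h
  · have h1 : σ.take k ∉ Sk T.O k p := fun h1 => (hσ _ h1).1 (List.take_prefix _ _)
    rw [mem_Sk] at h1
    push Not at h1
    have h2 := h1 (by rw [List.length_take]; omega)
    rw [← List.take_append_drop k σ]
    exact CN_prefix T h2 _
  · refine CN_split T hp (k - σ.length) σ fun ρ hρ => ?_
    have h1 : σ ++ ρ ∉ Sk T.O k p := fun h1 => (hσ _ h1).2 (List.prefix_append _ _)
    rw [mem_Sk] at h1
    push Not at h1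
    exact h1 (by rw [List.length_append]; omega)

/-! ### The set of the translations -/

/-- the strings of length `k` which may be initial segments of `x` if `x + S ⊆ C` -/
noncomputable def Bk (OS OC : List Bool → Cn I → Prop)
    (Nb : List Bool → List Bool → Finset (List Bool)) (k : ℕ) (p : Cn I) : Finset (List Bool) :=
  @Finset.filter _ (fun ρ => ∀ j ≤ k, ∀ τ : List Bool, τ.length = j → ¬ OS τ p →
    ∃ l ∈ Nb (ρ.take j) τ, ¬ OC l p) (Classical.decPred _) (str k)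

theorem mem_Bk {OS OC : List Bool → Cn I → Prop} {Nb : List Bool → List Bool → Finset (List Bool)}
    {k : ℕ} {p : Cn I} {ρ : List Bool} : ρ ∈ Bk OS OC Nb k p ↔ ρ.length = k ∧
      ∀ j ≤ k, ∀ τ : List Bool, τ.length = j → ¬ OS τ p → ∃ l ∈ Nb (ρ.take j) τ, ¬ OC l p := by
  unfold Bk
  rw [@Finset.mem_filter _ _ (Classical.decPred _), mem_str]

/-- the strings relevant for the levels `≤ k` -/
def Lk (Nb : List Bool → List Bool → Finset (List Bool)) (k : ℕ) : Finset (List Bool) :=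
  (Finset.range (k + 1)).biUnion fun j => str j ∪
    (str j).biUnion fun ρ => (str j).biUnion fun τ => Nb ρ τ

theorem mem_Lk_left {Nb : List Bool → List Bool → Finset (List Bool)} {k : ℕ} {l : List Bool}
    (h : l.length ≤ k) : l ∈ Lk Nb k := by
  unfold Lk
  rw [Finset.mem_biUnion]
  exact ⟨l.length, Finset.mem_range.2 (by omega), Finset.mem_union_left _ (mem_str.2 rfl)⟩

theorem mem_Lk_right {Nb : List Bool → List Bool → Finset (List Bool)} {k : ℕ}
    {ρ τ l : List Bool} (h : ρ.length ≤ k) (h' : τ.length = ρ.length) (hl : l ∈ Nb ρ τ) :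
    l ∈ Lk Nb k := by
  unfold Lk
  rw [Finset.mem_biUnion]
  refine ⟨ρ.length, Finset.mem_range.2 (by omega), Finset.mem_union_right _ ?_⟩
  rw [Finset.mem_biUnion]
  refine ⟨ρ, mem_str.2 rfl, ?_⟩
  rw [Finset.mem_biUnion]
  exact ⟨τ, mem_str.2 h', hl⟩

theorem Lk_mono {Nb : List Bool → List Bool → Finset (List Bool)} {k k' : ℕ} (h : k ≤ k') :
    Lk Nb k ⊆ Lk Nb k' := by
  unfold Lk
  refine Finset.biUnion_subset_biUnion_of_subset_left _ ?_
  intro j hj
  rw [Finset.mem_range] at hj ⊢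
  omega

section

variable {δ : I} {Nb : List Bool → List Bool → Finset (List Bool)} {S C : CN δ}

theorem Sk_take {k k' : ℕ} (h : k ≤ k') {p q : Cn I} (hq : Ext δ q p) {a : List Bool}
    (ha : a ∈ Sk S.O k' q) : a.take k ∈ Sk S.O k p := by
  rw [mem_Sk] at ha ⊢
  refine ⟨by rw [List.length_take]; omega, fun h1 => ha.2 ?_⟩
  rw [← List.take_append_drop k a]
  exact CN_prefix S ((S.reg _).mono _ _ hq h1) _

theorem Bk_take {k k' : ℕ} (h : k ≤ k') {p q : Cn I} (hq : Ext δ q p)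
    (hS : Dec δ S.O (Lk Nb k) p) {a : List Bool}
    (ha : a ∈ Bk S.O C.O Nb k' q) : a.take k ∈ Bk S.O C.O Nb k p := by
  rw [mem_Bk] at ha ⊢
  refine ⟨by rw [List.length_take]; omega, fun j hj τ hτ h1 => ?_⟩
  have h2 : ¬ S.O τ q := fun h3 => h1 ((hS.iff hq (mem_Lk_left (by omega))).1 h3)
  obtain ⟨l, hl, h3⟩ := ha.2 j (by omega) τ hτ h2
  rw [List.take_take, min_eq_left hj]
  exact ⟨l, hl, fun h4 => h3 ((C.reg _).mono _ _ hq h4)⟩

theorem Bk_eq {k : ℕ} {p q : Cn I} (hq : Ext δ q p)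
    (hS : Dec δ S.O (Lk Nb k) p) (hC : Dec δ C.O (Lk Nb k) p) :
    Bk S.O C.O Nb k q = Bk S.O C.O Nb k p := by
  ext ρ
  rw [mem_Bk, mem_Bk]
  refine and_congr_right fun hρ => ?_
  refine forall_congr' fun j => forall_congr' fun hj => forall_congr' fun τ =>
    forall_congr' fun hτ => ?_
  rw [hS.iff hq (mem_Lk_left (by omega))]
  refine forall_congr' fun _ => exists_congr fun l => and_congr_right fun hl => ?_
  rw [hC.iff hq (mem_Lk_right (by rw [List.length_take]; omega)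
    (by rw [List.length_take]; omega) hl)]

/-- `q` forces that the initial segment of `x` of length `k` is in `Bk` -/
theorem mem_Bk_of_sub {β : I} (hδ : δ ≤ β) {x : RN β} {q : Cn I}
    (hsub : Sub β q S.O (subO β C.O x Nb)) {p q₁ : Cn I} {k : ℕ} (hq₁ : Ext β q₁ q)
    (hp : Ext δ q₁ p) (hS : Dec δ S.O (Lk Nb k) p) {ρ : List Bool} (hρ : ρ.length = k)
    (hx : x.D ρ q₁) : ρ ∈ Bk S.O C.O Nb k p := by
  rw [mem_Bk]
  refine ⟨hρ, fun j hj τ hτ h1 => ?_⟩
  by_contra hcon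
  push Not at hcon
  have hx' : x.D (ρ.take j) q₁ := by
    have : ∀ (s t : List Bool), x.D (s ++ t) q₁ → x.D s q₁ := by
      intro s t
      induction t using List.reverseRecOn with
      | nil => exact fun h => by rwa [List.append_nil] at h
      | append_singleton l a ih =>
        intro h
        rw [← List.append_assoc] at h
        exact ih (x.pre _ _ _ h)
    exact this _ (ρ.drop j) (by rwa [List.take_append_drop])
  have h2 : S.O τ q₁ := by
    refine hsub τ q₁ hq₁ fun q₂ hq₂ => ⟨q₂, Ext.refl hq₂.1, ρ.take j, ?_, ?_, ?_⟩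
    · rw [List.length_take]; omega
    · exact (x.reg _).mono _ _ hq₂ hx'
    · intro τ' h3 h4 l hl
      have h5 : τ = τ' := h4.eq_of_length (by rw [h3, List.length_take]; omega)
      subst h5
      exact (C.reg _).mono _ _ ((hq₂.anti hδ).trans hp) (hcon l hl)
  exact h1 ((hS.iff hp (mem_Lk_left (by omega))).1 h2)

/-- the main step: the density of the small values -/
theorem dense_small (hN : Stein Nb) {q : Cn I} (hC : NWD δ C.O q) (hS : NN δ S.O q) (m : ℕ)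
    {p₀ : Cn I} (hp₀ : Ext δ p₀ q) : ∃ p k, Ext δ p p₀ ∧ Dec δ S.O (Lk Nb k) p ∧
      Dec δ C.O (Lk Nb k) p ∧ wt (Bk S.O C.O Nb k p) ≤ (1 / 2) ^ m := by
  classical
  by_contra hcon
  push Not at hcon
  obtain ⟨n, hn⟩ := hS
  set R : (Cn I × ℕ) → (Cn I × ℕ) → Prop := fun a b => Ext δ b.1 a.1 ∧ a.2 ≤ b.2 ∧
    Dec δ S.O (Lk Nb b.2) b.1 ∧ Dec δ C.O (Lk Nb b.2) b.1 with hR
  set f : Cn I × ℕ → ℝ := fun a => wt (Sk S.O a.2 a.1) with hf
  set g : Cn I × ℕ → ℝ := fun a => wt (Bk S.O C.O Nb a.2 a.1) with hg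
  obtain ⟨p₁', hp₁', h1'⟩ := exists_Dec S (Lk Nb 0) p₀ hp₀.1
  obtain ⟨p₁, hp₁, h1⟩ := exists_Dec C (Lk Nb 0) p₁' hp₁'.1
  have hp1 : Ext δ p₁ p₀ := hp₁.trans hp₁'
  have hfc : ∀ b, Ext δ b.1 p₀ → (1 / 2 : ℝ) ^ n ≤ f b := by
    intro b hb
    by_contra h2
    push Not at h2
    exact hn b.1 (hb.trans hp₀) _ h2.le (InC_Sk S hb.1 _)
  have hgc : ∀ b, Ext δ b.1 p₀ → Dec δ S.O (Lk Nb b.2) b.1 → Dec δ C.O (Lk Nb b.2) b.1 →
      (1 / 2 : ℝ) ^ m ≤ g b := fun b h2 h3 h4 => (hcon b.1 b.2 h2 h3 h4).le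
  have hpos : ∀ i : ℕ, (0 : ℝ) < (1 / 2) ^ i := fun i => by positivity
  obtain ⟨⟨p₂, k₂⟩, hR2, hmin⟩ := exists_near_min R
    (fun a b c h1 h2 => ⟨h2.1.trans h1.1, h1.2.1.trans h2.2.1, h2.2.2⟩)
    (fun a => f a * g a) ((1 / 2) ^ n * (1 / 2) ^ m) (mul_pos (hpos n) (hpos m)) (p₁, 0)
    ⟨Ext.refl hp1.1, le_rfl, h1'.mono hp₁, h1⟩
    (fun b hb => mul_le_mul (hfc b (hb.1.trans hp1)) (hgc b (hb.1.trans hp1) hb.2.2.1 hb.2.2.2)
      (hpos m).le ((hpos n).le.trans (hfc b (hb.1.trans hp1))))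
  obtain ⟨hp2, -, hDS, hDC⟩ := hR2
  simp only at hp2 hDS hDC
  have hp20 : Ext δ p₂ p₀ := hp2.trans hp1
  -- the strings
  set F : Finset (List Bool × List Bool) := (str k₂) ×ˢ (str k₂) with hF
  have hτ₀ : ∀ z : List Bool × List Bool, ∃ τ₀ : List Bool, z.1.length = z.2.length →
      ∀ τ, τ₀ <+: τ → ∃ K, ∀ k ≥ K,
    ∀ B A : Finset (List Bool), (∀ b ∈ B, b.length = k ∧ z.1 <+: b) →
      (∀ a ∈ A, a.length = k ∧ z.2 <+: a) →
      (3 / 4 : ℝ) * 2 ^ (k - z.1.length) ≤ B.card → (3 / 4 : ℝ) * 2 ^ (k - z.1.length) ≤ A.card →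
      ∃ b ∈ B, ∃ a ∈ A, ∀ l ∈ Nb b a, τ <+: l := by
    intro z
    by_cases h : z.1.length = z.2.length
    · obtain ⟨τ₀, h2⟩ := hN z.1 z.2 h
      exact ⟨τ₀, fun _ => h2⟩
    · exact ⟨[], fun h3 => absurd h3 h⟩
  choose τ₀ hτ₀ using hτ₀
  obtain ⟨p₃, hp3, τ, hτ⟩ := exists_NWD C hC F τ₀ p₂ (hp20.trans hp₀)
  have hK : ∀ z : List Bool × List Bool, ∃ K, z ∈ F → ∀ k ≥ K,
    ∀ B A : Finset (List Bool), (∀ b ∈ B, b.length = k ∧ z.1 <+: b) →
      (∀ a ∈ A, a.length = k ∧ z.2 <+: a) →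
      (3 / 4 : ℝ) * 2 ^ (k - z.1.length) ≤ B.card → (3 / 4 : ℝ) * 2 ^ (k - z.1.length) ≤ A.card →
      ∃ b ∈ B, ∃ a ∈ A, ∀ l ∈ Nb b a, τ z <+: l := by
    intro z
    by_cases hz : z ∈ F
    · rw [hF, Finset.mem_product, mem_str, mem_str] at hz
      obtain ⟨K, hK⟩ := hτ₀ z (by rw [hz.1, hz.2]) (τ z) (hτ z (by
        rw [hF, Finset.mem_product, mem_str, mem_str]; exact hz)).1
      exact ⟨K, fun _ => hK⟩
    · exact ⟨0, fun h => absurd h hz⟩
  choose K hK using hK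
  set k : ℕ := max k₂ (F.sup K) with hk
  obtain ⟨p₄', hp₄', h4'⟩ := exists_Dec S (Lk Nb k) p₃ hp3.1
  obtain ⟨p₄, hp₄, h4⟩ := exists_Dec C (Lk Nb k) p₄' hp₄'.1
  have hp43 : Ext δ p₄ p₃ := hp₄.trans hp₄'
  have hp42 : Ext δ p₄ p₂ := hp43.trans hp3
  have hk2 : k₂ ≤ k := le_max_left _ _
  have hDS4 : Dec δ S.O (Lk Nb k) p₄ := h4'.mono hp₄
  have hm := hmin (p₄, k) ⟨hp42, hk2, hDS4, h4⟩
  -- the lengths
  have lS : ∀ j r, ∀ a ∈ Sk S.O j r, a.length = j := fun j r a ha => (mem_Sk.1 ha).1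
  have lB : ∀ j r, ∀ a ∈ Bk S.O C.O Nb j r, a.length = j := fun j r a ha => (mem_Bk.1 ha).1
  have tS : ∀ a ∈ Sk S.O k p₄, a.take k₂ ∈ Sk S.O k₂ p₂ := fun a ha => Sk_take hk2 hp42 ha
  have tB : ∀ a ∈ Bk S.O C.O Nb k p₄, a.take k₂ ∈ Bk S.O C.O Nb k₂ p₂ :=
    fun a ha => Bk_take hk2 hp42 hDS ha
  have mS : f (p₄, k) ≤ f (p₂, k₂) := wt_le_of_take hk2 (lS _ _) (lS _ _) tS
  have mB : g (p₄, k) ≤ g (p₂, k₂) := wt_le_of_take hk2 (lB _ _) (lB _ _) tB
  have pS : 0 < f (p₄, k) := (hpos n).trans_le (hfc (p₄, k) (hp42.trans hp20))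
  have pB : 0 < g (p₄, k) := (hpos m).trans_le (hgc (p₄, k) (hp42.trans hp20) hDS4 h4)
  have sS : f (p₂, k₂) < 4 / 3 * f (p₄, k) := by
    by_contra h5
    push Not at h5
    have : 4 / 3 * (f (p₄, k) * g (p₄, k)) ≤ f (p₂, k₂) * g (p₂, k₂) := by
      calc 4 / 3 * (f (p₄, k) * g (p₄, k)) = (4 / 3 * f (p₄, k)) * g (p₄, k) := by ring
        _ ≤ f (p₂, k₂) * g (p₂, k₂) := mul_le_mul h5 mB pB.le (pS.le.trans mS)
    linarith
  have sB : g (p₂, k₂) < 4 / 3 * g (p₄, k) := by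
    by_contra h5
    push Not at h5
    have : 4 / 3 * (f (p₄, k) * g (p₄, k)) ≤ f (p₂, k₂) * g (p₂, k₂) := by
      calc 4 / 3 * (f (p₄, k) * g (p₄, k)) = f (p₄, k) * (4 / 3 * g (p₄, k)) := by ring
        _ ≤ f (p₂, k₂) * g (p₂, k₂) := mul_le_mul mS h5 (by positivity) (pS.le.trans mS)
    linarith
  obtain ⟨σ₁, hσ₁, hA⟩ := exists_dense_fiber hk2 (lS _ _) (lS _ _) tS sS
  obtain ⟨ρ₁, hρ₁, hB⟩ := exists_dense_fiber hk2 (lB _ _) (lB _ _) tB sB
  have hz : (ρ₁, σ₁) ∈ F := by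
    rw [hF, Finset.mem_product, mem_str, mem_str]
    exact ⟨lB _ _ _ hρ₁, lS _ _ _ hσ₁⟩
  have hρl : ρ₁.length = k₂ := lB _ _ _ hρ₁
  obtain ⟨b, hb, a, ha, h6⟩ := hK (ρ₁, σ₁) hz k ((Finset.le_sup hz).trans (le_max_right _ _))
    ((Bk S.O C.O Nb k p₄).filter (fun a => a.take k₂ = ρ₁))
    ((Sk S.O k p₄).filter (fun a => a.take k₂ = σ₁))
    (fun b hb => by
      rw [Finset.mem_filter] at hb
      refine ⟨lB _ _ _ hb.1, ?_⟩
      rw [← hb.2]
      exact List.take_prefix _ _)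
    (fun b hb => by
      rw [Finset.mem_filter] at hb
      refine ⟨lS _ _ _ hb.1, ?_⟩
      rw [← hb.2]
      exact List.take_prefix _ _)
    (by rw [hρl]; exact hB) (by rw [hρl]; exact hA)
  rw [Finset.mem_filter, mem_Bk] at hb
  rw [Finset.mem_filter, mem_Sk] at ha
  obtain ⟨l, hl, h7⟩ := hb.1.2 k le_rfl a ha.1.1 ha.1.2
  rw [List.take_of_length_le (by rw [hb.1.1])] at hl
  obtain ⟨t, rfl⟩ := h6 l hl
  exact h7 (CN_prefix C ((C.reg _).mono _ _ hp43 (hτ _ hz).2) _)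

end

end St1

theorem steinhaus {δ β : I} (hδ : δ ≤ β) {Nb : List Bool → List Bool → Finset (List Bool)}
    (hN : Stein Nb) (S C : CN δ) (x : RN β) {q : Cn I} (hq : Val β q) (hC : NWD δ C.O q)
    (hS : NN δ S.O q) (hsub : Sub β q S.O (subO β C.O x Nb)) :
    ∃ N : NS δ, ∃ r, Ext β r q ∧ Covers β x.toCN.O N r := by
  obtain ⟨N, hNS⟩ := exists_NS δ q (fun m u p => wt u ≤ (1 / 2) ^ m ∧ ∃ k,
      St1.Dec δ S.O (St1.Lk Nb k) p ∧ St1.Dec δ C.O (St1.Lk Nb k) p ∧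
        u = St1.Bk S.O C.O Nb k p)
    (fun m u p q hqp h => by
      obtain ⟨h1, k, h2, h3, h4⟩ := h
      exact ⟨h1, k, h2.mono hqp, h3.mono hqp, by rw [St1.Bk_eq hqp h2 h3, h4]⟩)
    (fun m u p h => h.1)
    (fun m p hp => by
      obtain ⟨r, k, h1, h2, h3, h4⟩ := St1.dense_small hN hC hS m hp
      exact ⟨r, _, h1, h4, k, h2, h3, rfl⟩)
  refine ⟨N, q, Ext.refl hq, fun m u q₁ hq₁ hU σ hσ q₂ hq₂ hD => ?_⟩
  obtain ⟨-, k, h1, h2, rfl⟩ := hNS m u q₁ (hq₁.anti hδ) hU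
  obtain ⟨q₃, ρ, hq₃, hρ, hDρ⟩ := x.dense k q₂ hq₂.1
  have hDσ : x.D σ q₃ := (x.reg _).mono _ _ hq₃ hD
  have hmem : ρ ∈ St1.Bk S.O C.O Nb k q₁ := St1.mem_Bk_of_sub hδ hsub
    ((hq₃.trans hq₂).trans hq₁) ((hq₃.trans hq₂).anti hδ) h1 hρ hDρ
  rcases x.cons q₃ ρ σ hq₃.1 hDρ hDσ with h | h
  · exact (hσ ρ hmem).1 h
  · exact (hσ ρ hmem).2 h

end Pool.Agent.Helper34.SG
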